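import Pool.Agent.Helper31.AV.Core
import Pool.Agent.Helper91.AP.Kantor
import Pool.Agent.Helper91.AP.Ex

/-!
# MP_2a19db_al: a criterion for Aut(V)-pairs

Let `V` be a vector space of finite dimension `n` over a field `F`, `a` a singular endomorphism
of rank `r` and `G` a subgroup of `Aut(V)`.

(1) For every field `F`: `(a, G)` is an `Aut(V)`-pair if and only if `G` is transitive on the
subspaces of dimension `r`, transitive on the subspaces of dimension `n - r`, and for every
`g ∈ G` such that `a g a` has rank `r` there is `x ∈ ⟨a, G⟩` with `x (a g a) = a`.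

(2) If `F` is an algebraic extension of a finite field (for example if `F` is finite), then the
third condition is automatic: `(a, G)` is an `Aut(V)`-pair if and only if `G` is transitive on the
subspaces of dimension `r` and on the subspaces of dimension `n - r`.  In particular this depends
only on the rank of `a`.

(3) If `F` is finite, one of the two transitivity conditions suffices.

(4) Over the rationals the third condition is not automatic: `SL(2, Z)` and the projection onto the
first coordinate.

Proof.  The elements of `G a G` have all images and all kernels.  By the third condition all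
idempotents of rank `r` are in `S = ⟨a, G⟩`.  If `s ∈ S` has rank `r` and `s'` is a map of rank `r`
such that the image of `s' - s` is generated by a vector `d` which is not in the image of `s'`,
then `s' = e s` with an idempotent `e` of rank `r`, so `s' ∈ S`.  Two such steps give every
map of rank `r` which differs from `s` by a map of rank one with larger kernel, so `τ s ∈ S` for all
the transvections and dilatations `τ`, and these generate `Aut(V)`.
-/

set_option autoImplicit false

open Module

namespace Pool.Agent.Results.MP_2a19db_al.SubspaceTransitive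

open Pool.Agent.Helper31.AV

variable {F V : Type*} [Field F] [AddCommGroup V] [Module F V]

/-- The subsemigroup `⟨a, G⟩` of `End(V)` generated by `a` and `G`. -/
def gen (a : Module.End F V) (G : Subgroup (LinearMap.GeneralLinearGroup F V)) :
    Subsemigroup (Module.End F V) :=
  Subsemigroup.closure ({a} ∪ Units.val '' (G : Set (LinearMap.GeneralLinearGroup F V)))

/-- `(a, G)` is an `Aut(V)`-pair: `⟨a, G⟩ \ G = ⟨a, Aut(V)⟩ \ Aut(V)`. -/
def IsAutPair (a : Module.End F V) (G : Subgroup (LinearMap.GeneralLinearGroup F V)) : Prop :=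
  (gen a G : Set (Module.End F V)) \ (Units.val '' (G : Set (LinearMap.GeneralLinearGroup F V))) =
    (gen a ⊤ : Set (Module.End F V)) \
      (Units.val '' ((⊤ : Subgroup (LinearMap.GeneralLinearGroup F V)) :
        Set (LinearMap.GeneralLinearGroup F V)))

/-- The rank of an endomorphism. -/
noncomputable def rank (a : Module.End F V) : ℕ := finrank F (LinearMap.range a)

/-- `G` is transitive on the subspaces of dimension `k`. -/
def Transitive (G : Subgroup (LinearMap.GeneralLinearGroup F V)) (k : ℕ) : Prop :=
  ∀ U U' : Submodule F V, finrank F U = k → finrank F U' = k →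
    ∃ g ∈ G, U.map (g : Module.End F V) = U'

/-- For every `g ∈ G` such that `a g a` has the rank of `a` there is `x ∈ ⟨a, G⟩` with
`x (a g a) = a`. -/
def Regular (a : Module.End F V) (G : Subgroup (LinearMap.GeneralLinearGroup F V)) : Prop :=
  ∀ g ∈ G, rank (a * (g : Module.End F V) * a) = rank a →
    ∃ x ∈ gen a G, x * (a * (g : Module.End F V) * a) = a

theorem mem_a (a : Module.End F V) (G : Subgroup (LinearMap.GeneralLinearGroup F V)) : a ∈ gen a G :=
  Subsemigroup.subset_closure (Or.inl rfl)

theorem mem_g (a : Module.End F V) {G : Subgroup (LinearMap.GeneralLinearGroup F V)}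
    {g : LinearMap.GeneralLinearGroup F V} (hg : g ∈ G) : (g : Module.End F V) ∈ gen a G :=
  Subsemigroup.subset_closure (Or.inr ⟨g, hg, rfl⟩)

theorem left_form {a : Module.End F V} {G : Subgroup (LinearMap.GeneralLinearGroup F V)} {x : Module.End F V}
    (hx : x ∈ gen a G) : (∃ g ∈ G, x = (g : Module.End F V)) ∨
      ∃ g ∈ G, ∃ c : Module.End F V, x = (g : Module.End F V) * a * c := by
  unfold gen at hx
  induction hx using Subsemigroup.closure_induction with
  | mem x hx =>
    rcases hx with hx | ⟨g, hg, rfl⟩
    · right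
      exact ⟨1, G.one_mem, 1, by rw [Set.mem_singleton_iff.1 hx]; simp⟩
    · left
      exact ⟨g, hg, rfl⟩
  | mul x y _ _ ihx ihy =>
    rcases ihx with ⟨g, hg, rfl⟩ | ⟨g, hg, c, rfl⟩
    · rcases ihy with ⟨g', hg', rfl⟩ | ⟨g', hg', c, rfl⟩
      · left
        exact ⟨g * g', G.mul_mem hg hg', by simp⟩
      · right
        exact ⟨g * g', G.mul_mem hg hg', c, by simp [mul_assoc]⟩
    · right
      exact ⟨g, hg, c * y, by simp [mul_assoc]⟩

theorem right_form {a : Module.End F V} {G : Subgroup (LinearMap.GeneralLinearGroup F V)} {x : Module.End F V}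
    (hx : x ∈ gen a G) : (∃ g ∈ G, x = (g : Module.End F V)) ∨
      ∃ g ∈ G, ∃ c : Module.End F V, x = c * a * (g : Module.End F V) := by
  unfold gen at hx
  induction hx using Subsemigroup.closure_induction with
  | mem x hx =>
    rcases hx with hx | ⟨g, hg, rfl⟩
    · right
      exact ⟨1, G.one_mem, 1, by rw [Set.mem_singleton_iff.1 hx]; simp⟩
    · left
      exact ⟨g, hg, rfl⟩
  | mul x y _ _ ihx ihy =>
    rcases ihy with ⟨g, hg, rfl⟩ | ⟨g, hg, c, rfl⟩
    · rcases ihx with ⟨g', hg', rfl⟩ | ⟨g', hg', c, rfl⟩
      · left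
        exact ⟨g' * g, G.mul_mem hg' hg, by simp⟩
      · right
        exact ⟨g' * g, G.mul_mem hg' hg, c, by simp [mul_assoc]⟩
    · right
      exact ⟨g, hg, x * c, by simp [mul_assoc]⟩

variable [FiniteDimensional F V]

omit [FiniteDimensional F V] in
theorem unit_inj (g : LinearMap.GeneralLinearGroup F V) : Function.Injective (g : Module.End F V) := by
  intro x y hxy
  have := congrArg ((g⁻¹ : LinearMap.GeneralLinearGroup F V) : Module.End F V) hxy
  rw [← Module.End.mul_apply, ← Module.End.mul_apply, Units.inv_mul] at this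
  simpa using this

omit [FiniteDimensional F V] in
theorem inv_app (g : LinearMap.GeneralLinearGroup F V) (x : V) :
    ((g⁻¹ : LinearMap.GeneralLinearGroup F V) : Module.End F V) ((g : Module.End F V) x) = x := by
  rw [← Module.End.mul_apply, Units.inv_mul]
  rfl

omit [FiniteDimensional F V] in
theorem app_inv (g : LinearMap.GeneralLinearGroup F V) (x : V) :
    (g : Module.End F V) (((g⁻¹ : LinearMap.GeneralLinearGroup F V) : Module.End F V) x) = x := by
  rw [← Module.End.mul_apply, Units.mul_inv]
  rfl

theorem rank_unit (g : LinearMap.GeneralLinearGroup F V) : rank (g : Module.End F V) = finrank F V :=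
  LinearMap.finrank_range_of_inj (unit_inj g)

theorem rank_lt {a : Module.End F V} (ha : ¬ IsUnit a) : rank a < finrank F V := by
  unfold rank
  by_contra hcon
  apply ha
  have h1 : finrank F (LinearMap.range a) = finrank F V := le_antisymm (Submodule.finrank_le _) (by omega)
  have h2 : LinearMap.range a = ⊤ := Submodule.eq_top_of_finrank_eq h1
  exact (LinearMap.isUnit_iff_range_eq_top a).2 h2

theorem rank_le_left {a c : Module.End F V} (g : LinearMap.GeneralLinearGroup F V) :
    rank ((g : Module.End F V) * a * c) ≤ rank a := by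
  unfold rank
  have h1 : LinearMap.range ((g : Module.End F V) * a * c) ≤ (LinearMap.range a).map (g : Module.End F V) := by
    rintro _ ⟨v, rfl⟩
    exact ⟨a (c v), LinearMap.mem_range_self _ _, rfl⟩
  exact (Submodule.finrank_mono h1).trans (Submodule.finrank_map_le _ _)

theorem rank_add (a : Module.End F V) : rank a + finrank F (LinearMap.ker a) = finrank F V :=
  LinearMap.finrank_range_add_finrank_ker a

/-- an equivalence as a unit -/
def toUnit (P : V ≃ₗ[F] V) : LinearMap.GeneralLinearGroup F V :=
  LinearMap.GeneralLinearGroup.ofLinearEquiv P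

omit [FiniteDimensional F V] in
theorem coe_toUnit (P : V ≃ₗ[F] V) : ((toUnit P : LinearMap.GeneralLinearGroup F V) : Module.End F V) =
    (P : V →ₗ[F] V) := rfl

/-- the full group is transitive -/
theorem trans_top (k : ℕ) : Transitive (⊤ : Subgroup (LinearMap.GeneralLinearGroup F V)) k := by
  intro U U' hU hU'
  obtain ⟨W, hW⟩ := Submodule.exists_isCompl U
  obtain ⟨x, hx1, hx2, hx3⟩ := exists_proj hW
  let φ : U ≃ₗ[F] U' := LinearEquiv.ofFinrankEq _ _ (hU.trans hU'.symm)
  let y : Module.End F V := U'.subtype ∘ₗ (φ : U →ₗ[F] U') ∘ₗ U.projectionOnto W hW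
  have hy : LinearMap.range y = U' := by
    show LinearMap.range (U'.subtype ∘ₗ (φ : U →ₗ[F] U') ∘ₗ U.projectionOnto W hW) = U'
    rw [LinearMap.range_comp, LinearMap.range_comp, Submodule.range_projectionOnto, Submodule.map_top,
      LinearEquiv.range, Submodule.map_top, Submodule.range_subtype]
  have hker : LinearMap.ker x = LinearMap.ker y := by
    have e1 : LinearMap.ker y = W := by
      show LinearMap.ker (U'.subtype ∘ₗ (φ : U →ₗ[F] U') ∘ₗ U.projectionOnto W hW) = W
      rw [LinearMap.ker_comp_of_ker_eq_bot _ (Submodule.ker_subtype U'),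
        LinearMap.ker_comp_of_ker_eq_bot _ (LinearEquiv.ker φ), Submodule.ker_projectionOnto]
    rw [e1]
    have h2 : W ≤ LinearMap.ker x := fun w hw => hx3 w hw
    symm
    apply Submodule.eq_of_le_of_finrank_eq h2
    have h3 := LinearMap.finrank_range_add_finrank_ker x
    have h4 := Submodule.finrank_add_eq_of_isCompl hW
    rw [hx1] at h3
    omega
  obtain ⟨P, hP⟩ := same_ker hker
  refine ⟨toUnit P, Subgroup.mem_top _, ?_⟩
  rw [coe_toUnit, ← hx1, ← LinearMap.range_comp, ← hy, hP]
  rfl

theorem ker_eq {a b : Module.End F V} (h : ∀ v, a v = 0 → b v = 0) (hr : rank b = rank a) :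
    LinearMap.ker a = LinearMap.ker b := by
  apply Submodule.eq_of_le_of_finrank_eq
  · intro v hv
    exact h v hv
  · have h1 := rank_add a
    have h2 := rank_add b
    omega

/-- all maps of rank at most `rank a` are in `⟨a, G⟩` -/
def Full (a : Module.End F V) (G : Subgroup (LinearMap.GeneralLinearGroup F V)) : Prop :=
  ∀ x : Module.End F V, rank x ≤ rank a → x ∈ gen a G

theorem reg_top (a : Module.End F V) : Regular a (⊤ : Subgroup (LinearMap.GeneralLinearGroup F V)) := by
  intro g _ hr
  have hker : LinearMap.ker (a * (g : Module.End F V) * a) = LinearMap.ker a := by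
    symm
    apply ker_eq _ hr
    intro v hv
    rw [Module.End.mul_apply, hv, map_zero]
  obtain ⟨P, hP⟩ := same_ker hker
  exact ⟨(toUnit P : LinearMap.GeneralLinearGroup F V), mem_g a (Subgroup.mem_top _), hP.symm⟩

theorem full_of {a : Module.End F V} (ha : ¬ IsUnit a) {G : Subgroup (LinearMap.GeneralLinearGroup F V)}
    (h1 : Transitive G (rank a)) (h2 : Transitive G (finrank F V - rank a)) (h3 : Regular a G) : Full a G := by
  have hrn := rank_lt ha
  have hadd := rank_add a
  have hkera : finrank F (LinearMap.ker a) = finrank F V - rank a := by omega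
  have hK : ∀ W : Submodule F V, finrank F W + rank a = finrank F V → ∃ h ∈ G,
      ∀ w, w ∈ W ↔ a ((h : Module.End F V) w) = 0 := by
    intro W hW
    obtain ⟨h, hh, hmap⟩ := h2 W (LinearMap.ker a) (by omega) hkera
    refine ⟨h, hh, fun w => ⟨fun hw => ?_, fun hw => ?_⟩⟩
    · have : (h : Module.End F V) w ∈ LinearMap.ker a := by
        rw [← hmap]
        exact ⟨w, hw, rfl⟩
      exact this
    · have : (h : Module.End F V) w ∈ W.map (h : Module.End F V) := by
        rw [hmap]
        exact hw
      obtain ⟨w', hw', he⟩ := this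
      exact (unit_inj h he) ▸ hw'
  intro x hx
  refine all_le (S := gen a G) (r := rank a) ?_ hrn ?_ hx
  · intro U W hUW hU
    obtain ⟨g, hg, hgU⟩ := h1 (LinearMap.range a) U rfl hU
    have hfin := Submodule.finrank_add_eq_of_isCompl hUW
    obtain ⟨h, hh, hhW⟩ := hK W (by omega)
    have hgh : h * g ∈ G := G.mul_mem hh hg
    have happ : ∀ v, (a * ((h * g : LinearMap.GeneralLinearGroup F V) : Module.End F V) * a) v =
        a ((h : Module.End F V) ((g : Module.End F V) (a v))) := fun v => rfl
    have hmemU : ∀ v, (g : Module.End F V) (a v) ∈ U := by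
      intro v
      rw [← hgU]
      exact ⟨a v, LinearMap.mem_range_self a v, rfl⟩
    have hrk : rank (a * ((h * g : LinearMap.GeneralLinearGroup F V) : Module.End F V) * a) = rank a := by
      apply rk_of_ker
      ext v
      rw [LinearMap.mem_ker, LinearMap.mem_ker, happ]
      constructor
      · intro h0
        have hW' : (g : Module.End F V) (a v) ∈ W := (hhW _).2 h0
        have h0' : (g : Module.End F V) (a v) = 0 :=
          (Submodule.disjoint_def.1 hUW.disjoint) _ (hmemU v) hW'
        exact unit_inj g (by rw [h0', map_zero])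
      · intro h0
        rw [h0, map_zero, map_zero, map_zero]
    obtain ⟨x, hx, hxe⟩ := h3 (h * g) hgh hrk
    refine ⟨(g : Module.End F V) * x * a * (h : Module.End F V),
      (gen a G).mul_mem ((gen a G).mul_mem ((gen a G).mul_mem (mem_g a hg) hx) (mem_a a G)) (mem_g a hh), ?_, ?_⟩
    · intro u hu
      rw [← hgU] at hu
      obtain ⟨_, ⟨v, rfl⟩, rfl⟩ := hu
      have := congrArg (fun s : Module.End F V => s v) hxe
      show (g : Module.End F V) (x (a ((h : Module.End F V) ((g : Module.End F V) (a v))))) =
        (g : Module.End F V) (a v)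
      exact congrArg _ this
    · intro w hw
      show (g : Module.End F V) (x (a ((h : Module.End F V) w))) = 0
      rw [(hhW w).1 hw, map_zero, map_zero]
  · intro W hW
    obtain ⟨h, hh, hhW⟩ := hK W hW
    refine ⟨a * (h : Module.End F V), (gen a G).mul_mem (mem_a a G) (mem_g a hh), ?_⟩
    ext w
    rw [LinearMap.mem_ker, hhW w]
    rfl

theorem of_full {a : Module.End F V} (ha : ¬ IsUnit a) {G : Subgroup (LinearMap.GeneralLinearGroup F V)}
    (hF : Full a G) : Transitive G (rank a) ∧ Transitive G (finrank F V - rank a) ∧ Regular a G := by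
  have hrn := rank_lt ha
  have hadd := rank_add a
  have hnu : ∀ x : Module.End F V, rank x ≤ rank a → ∀ g : LinearMap.GeneralLinearGroup F V,
      x ≠ (g : Module.End F V) := by
    rintro x hx g rfl
    rw [rank_unit] at hx
    omega
  refine ⟨?_, ?_, ?_⟩
  · have key : ∀ U : Submodule F V, finrank F U = rank a → ∃ g ∈ G, (LinearMap.range a).map (g : Module.End F V) = U := by
      intro U hU
      obtain ⟨W, hW⟩ := Submodule.exists_isCompl U
      obtain ⟨x, hx1, hx2, hx3⟩ := exists_proj hW
      have hxr : rank x = rank a := by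
        show finrank F (LinearMap.range x) = rank a
        rw [hx1, hU]
      rcases left_form (hF x hxr.le) with ⟨g, _, hg⟩ | ⟨g, hg, c, hc⟩
      · exact absurd hg (hnu x hxr.le g)
      · refine ⟨g, hg, ?_⟩
        rw [← hx1]
        symm
        apply Submodule.eq_of_le_of_finrank_le
        · rw [hc]
          rintro _ ⟨v, rfl⟩
          exact ⟨a (c v), LinearMap.mem_range_self _ _, rfl⟩
        · rw [hx1, hU]
          exact Submodule.finrank_map_le _ _
    intro U U' hU hU'
    obtain ⟨g, hg, hgU⟩ := key U hU
    obtain ⟨g', hg', hgU'⟩ := key U' hU'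
    refine ⟨g' * g⁻¹, G.mul_mem hg' (G.inv_mem hg), ?_⟩
    rw [← hgU, ← hgU']
    ext v
    constructor
    · rintro ⟨_, ⟨w, hw, rfl⟩, rfl⟩
      refine ⟨w, hw, ?_⟩
      show (g' : Module.End F V) w = (g' : Module.End F V) (((g⁻¹ : LinearMap.GeneralLinearGroup F V) : Module.End F V)
        ((g : Module.End F V) w))
      rw [inv_app]
    · rintro ⟨w, hw, rfl⟩
      refine ⟨(g : Module.End F V) w, ⟨w, hw, rfl⟩, ?_⟩
      show (g' : Module.End F V) (((g⁻¹ : LinearMap.GeneralLinearGroup F V) : Module.End F V)
        ((g : Module.End F V) w)) = (g' : Module.End F V) w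
      rw [inv_app]
  · have key : ∀ W : Submodule F V, finrank F W = finrank F V - rank a → ∃ g ∈ G,
        ∀ w, w ∈ W ↔ a ((g : Module.End F V) w) = 0 := by
      intro W hW
      obtain ⟨U, hU⟩ := Submodule.exists_isCompl W
      obtain ⟨x, hx1, hx2, hx3⟩ := exists_proj hU.symm
      have hfin := Submodule.finrank_add_eq_of_isCompl hU
      have hxr : rank x = rank a := by
        show finrank F (LinearMap.range x) = rank a
        rw [hx1]
        omega
      have hkx : LinearMap.ker x = W := by
        symm
        apply Submodule.eq_of_le_of_finrank_eq (fun w hw => hx3 w hw)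
        have := rank_add x
        omega
      rcases right_form (hF x hxr.le) with ⟨g, _, hg⟩ | ⟨g, hg, c, hc⟩
      · exact absurd hg (hnu x hxr.le g)
      · refine ⟨g, hg, ?_⟩
        have h1 : LinearMap.ker (a * (g : Module.End F V)) = LinearMap.ker x := by
          apply ker_eq
          · intro v hv
            rw [hc, mul_assoc, Module.End.mul_apply, hv, map_zero]
          · rw [hxr]
            have hcomp : rank (a * (g : Module.End F V)) = rank a := by
              show finrank F (LinearMap.range (a ∘ₗ (g : Module.End F V))) = finrank F (LinearMap.range a)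
              rw [LinearMap.range_comp]
              have : LinearMap.range (g : Module.End F V) = ⊤ := by
                rw [LinearMap.range_eq_top]
                intro v
                exact ⟨_, app_inv g v⟩
              rw [this, Submodule.map_top]
            exact hcomp.symm
        intro w
        rw [← hkx, ← h1, LinearMap.mem_ker]
        rfl
    intro W W' hW hW'
    obtain ⟨g, hg, hgW⟩ := key W hW
    obtain ⟨g', hg', hgW'⟩ := key W' hW'
    refine ⟨g'⁻¹ * g, G.mul_mem (G.inv_mem hg') hg, ?_⟩
    ext v
    rw [hgW']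
    constructor
    · rintro ⟨w, hw, rfl⟩
      show a ((g' : Module.End F V) (((g'⁻¹ : LinearMap.GeneralLinearGroup F V) : Module.End F V)
        ((g : Module.End F V) w))) = 0
      rw [app_inv]
      exact (hgW w).1 hw
    · intro hv
      refine ⟨((g⁻¹ : LinearMap.GeneralLinearGroup F V) : Module.End F V) ((g' : Module.End F V) v), ?_, ?_⟩
      · show ((g⁻¹ : LinearMap.GeneralLinearGroup F V) : Module.End F V) ((g' : Module.End F V) v) ∈ W
        rw [hgW, app_inv]
        exact hv
      · show ((g'⁻¹ : LinearMap.GeneralLinearGroup F V) : Module.End F V) ((g : Module.End F V)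
          (((g⁻¹ : LinearMap.GeneralLinearGroup F V) : Module.End F V) ((g' : Module.End F V) v))) = v
        rw [app_inv, inv_app]
  · intro g hg hr
    obtain ⟨y, _, hy⟩ := reg_top a g (Subgroup.mem_top _) hr
    obtain ⟨W, hW⟩ := Submodule.exists_isCompl (LinearMap.range (a * (g : Module.End F V) * a))
    obtain ⟨p, hp1, hp2, hp3⟩ := exists_proj hW
    refine ⟨y * p, hF _ ?_, ?_⟩
    · have h1 : rank p = rank a := by
        show finrank F (LinearMap.range p) = rank a
        rw [hp1]
        exact hr
      have h2 : rank (y * p) ≤ rank p := by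
        show finrank F (LinearMap.range (y ∘ₗ p)) ≤ finrank F (LinearMap.range p)
        rw [LinearMap.range_comp]
        exact Submodule.finrank_map_le _ _
      omega
    · ext v
      have h1 : p ((a * (g : Module.End F V) * a) v) = (a * (g : Module.End F V) * a) v :=
        hp2 _ (LinearMap.mem_range_self _ v)
      rw [Module.End.mul_apply, Module.End.mul_apply, h1]
      exact congrArg (fun s : Module.End F V => s v) hy

theorem pair_iff_full {a : Module.End F V} (ha : ¬ IsUnit a) (G : Subgroup (LinearMap.GeneralLinearGroup F V)) :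
    IsAutPair a G ↔ Full a G := by
  have hrn := rank_lt ha
  have hsub : ∀ G : Subgroup (LinearMap.GeneralLinearGroup F V), (gen a G : Set (Module.End F V)) \
      (Units.val '' (G : Set (LinearMap.GeneralLinearGroup F V))) ⊆ {x | rank x ≤ rank a} := by
    rintro G x ⟨hx, hx'⟩
    rcases left_form hx with ⟨g, hg, hg'⟩ | ⟨g, hg, c, rfl⟩
    · exact absurd ⟨g, hg, hg'.symm⟩ hx'
    · exact rank_le_left g
  have hnot : ∀ (G : Subgroup (LinearMap.GeneralLinearGroup F V)) (x : Module.End F V), rank x ≤ rank a →
      x ∉ Units.val '' (G : Set (LinearMap.GeneralLinearGroup F V)) := by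
    rintro G _ hx ⟨g, _, rfl⟩
    rw [rank_unit] at hx
    omega
  have htop : Full a (⊤ : Subgroup (LinearMap.GeneralLinearGroup F V)) :=
    full_of ha (trans_top _) (trans_top _) (reg_top a)
  have hright : (gen a ⊤ : Set (Module.End F V)) \
      (Units.val '' ((⊤ : Subgroup (LinearMap.GeneralLinearGroup F V)) :
        Set (LinearMap.GeneralLinearGroup F V))) = {x | rank x ≤ rank a} :=
    Set.Subset.antisymm (hsub ⊤) (fun x hx => ⟨htop x hx, hnot ⊤ x hx⟩)
  unfold IsAutPair
  rw [hright]
  constructor
  · intro h x hx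
    have : x ∈ {x | rank x ≤ rank a} := hx
    rw [← h] at this
    exact this.1
  · intro h
    exact Set.Subset.antisymm (hsub G) (fun x hx => ⟨h x hx, hnot G x hx⟩)

theorem criterion {a : Module.End F V} (ha : ¬ IsUnit a) (G : Subgroup (LinearMap.GeneralLinearGroup F V)) :
    IsAutPair a G ↔ Transitive G (rank a) ∧ Transitive G (finrank F V - rank a) ∧ Regular a G := by
  rw [pair_iff_full ha]
  exact ⟨of_full ha, fun h => full_of ha h.1 h.2.1 h.2.2⟩

omit [FiniteDimensional F V] in
theorem pow_mem' (S : Subsemigroup (Module.End F V)) {t : Module.End F V} (ht : t ∈ S) (k : ℕ) :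
    t ^ (k + 1) ∈ S := by
  induction k with
  | zero => simpa using ht
  | succ k ih =>
    rw [pow_succ]
    exact S.mul_mem ih ht

/-- over an algebraic extension of a finite field the powers of an endomorphism are repeated -/
theorem pow_rep (p : ℕ) [Fact p.Prime] [Algebra (ZMod p) F] (hF : Algebra.IsAlgebraic (ZMod p) F)
    (t : Module.End F V) : ∃ i m : ℕ, 0 < m ∧ t ^ (i + m) = t ^ i := by
  letI : Algebra (ZMod p) (Module.End F V) :=
    ((algebraMap F (Module.End F V)).comp (algebraMap (ZMod p) F)).toAlgebra' (fun c x =>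
      Algebra.commutes (algebraMap (ZMod p) F c) x)
  haveI : IsScalarTower (ZMod p) F (Module.End F V) := IsScalarTower.of_algebraMap_eq (fun _ => rfl)
  haveI : Algebra.IsIntegral (ZMod p) F := Algebra.isAlgebraic_iff_isIntegral.1 hF
  have h1 : IsIntegral F t := Algebra.IsIntegral.isIntegral t
  have h2 : IsIntegral (ZMod p) t := isIntegral_trans t h1
  have h3 := h2.fg_adjoin_singleton
  haveI : Module.Finite (ZMod p) (Algebra.adjoin (ZMod p) {t}) := ⟨(Submodule.fg_top _).2 h3⟩
  haveI : Finite (Algebra.adjoin (ZMod p) {t}) := Module.finite_of_finite (ZMod p)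
  obtain ⟨i, j, hij, he⟩ := Finite.exists_ne_map_eq_of_infinite
    (fun k : ℕ => (⟨t, Algebra.subset_adjoin rfl⟩ : Algebra.adjoin (ZMod p) {t}) ^ k)
  have he' : t ^ i = t ^ j := by
    have := congrArg Subtype.val he
    simpa using this
  rcases Nat.lt_or_gt_of_ne hij with h | h
  · exact ⟨i, j - i, by omega, by rw [Nat.add_sub_cancel' h.le]; exact he'.symm⟩
  · exact ⟨j, i - j, by omega, by rw [Nat.add_sub_cancel' h.le]; exact he'⟩

theorem reg_alg (p : ℕ) [Fact p.Prime] [Algebra (ZMod p) F] (hF : Algebra.IsAlgebraic (ZMod p) F)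
    (a : Module.End F V) (G : Subgroup (LinearMap.GeneralLinearGroup F V)) : Regular a G := by
  intro g hg hr
  set t : Module.End F V := a * (g : Module.End F V) with ht
  have htS : t ∈ gen a G := (gen a G).mul_mem (mem_a a G) (mem_g a hg)
  obtain ⟨i, m, hm, hpow⟩ := pow_rep p hF t
  have hker : LinearMap.ker a = LinearMap.ker (t * a) := by
    apply ker_eq _ hr
    intro v hv
    rw [Module.End.mul_apply, hv, map_zero]
  have hrange : LinearMap.range (t * a) = LinearMap.range a := by
    apply Submodule.eq_of_le_of_finrank_eq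
    · rintro _ ⟨v, rfl⟩
      exact ⟨(g : Module.End F V) (a v), rfl⟩
    · exact hr
  have hinj : ∀ u ∈ LinearMap.range a, t u = 0 → u = 0 := by
    rintro _ ⟨v, rfl⟩ h0
    have : v ∈ LinearMap.ker (t * a) := h0
    rw [← hker] at this
    exact this
  have hstab : ∀ k : ℕ, ∀ u ∈ LinearMap.range a, (t ^ k) u ∈ LinearMap.range a := by
    intro k
    induction k with
    | zero => intro u hu; simpa using hu
    | succ k ih =>
      intro u hu
      rw [pow_succ', Module.End.mul_apply]
      obtain ⟨w, hw⟩ := ih u hu
      rw [← hw, ← Module.End.mul_apply, ← hrange]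
      exact LinearMap.mem_range_self _ _
  have hinjk : ∀ k : ℕ, ∀ u ∈ LinearMap.range a, (t ^ k) u = 0 → u = 0 := by
    intro k
    induction k with
    | zero => intro u _ h0; simpa using h0
    | succ k ih =>
      intro u hu h0
      rw [pow_succ', Module.End.mul_apply] at h0
      exact ih u hu (hinj _ (hstab k u hu) h0)
  have hfix : ∀ u ∈ LinearMap.range a, (t ^ m) u = u := by
    intro u hu
    have h1 : (t ^ i) ((t ^ m) u - u) = 0 := by
      rw [map_sub, ← Module.End.mul_apply, ← pow_add, hpow, sub_self]
    have h2 := hinjk i _ (Submodule.sub_mem _ (hstab m u hu) hu) h1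
    exact sub_eq_zero.1 h2
  have hfix2 : ∀ u ∈ LinearMap.range a, (t ^ (m + m)) u = u := by
    intro u hu
    rw [pow_add, Module.End.mul_apply, hfix u hu, hfix u hu]
  refine ⟨t ^ ((m + m - 2) + 1), pow_mem' _ htS _, ?_⟩
  ext v
  show (t ^ ((m + m - 2) + 1)) (t (a v)) = a v
  rw [← Module.End.mul_apply, ← pow_succ, show m + m - 2 + 1 + 1 = m + m by omega]
  exact hfix2 _ (LinearMap.mem_range_self a v)

/-- The endomorphism `u ↦ a (g u)` of the image of `a`. -/
noncomputable def imageMap (a : Module.End F V) (g : LinearMap.GeneralLinearGroup F V) :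
    Module.End F (LinearMap.range a) :=
  a.rangeRestrict ∘ₗ (g : Module.End F V) ∘ₗ (LinearMap.range a).subtype

/-- Every automorphism of the image of `a` is a product of the maps `u ↦ a (g u)` with `g ∈ G`. -/
def Generates (a : Module.End F V) (G : Subgroup (LinearMap.GeneralLinearGroup F V)) : Prop :=
  ∀ m : Module.End F (LinearMap.range a), IsUnit m →
    m ∈ Subsemigroup.closure (imageMap a '' (G : Set (LinearMap.GeneralLinearGroup F V)))

theorem generates_of_full {a : Module.End F V} {G : Subgroup (LinearMap.GeneralLinearGroup F V)}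
    (hF : Full a G) : Generates a G := by
  intro m _
  set M := Subsemigroup.closure (imageMap a '' (G : Set (LinearMap.GeneralLinearGroup F V))) with hM
  have key : ∀ x ∈ gen a G, ∀ w : LinearMap.range a →ₗ[F] V,
      (∀ g ∈ G, (a.rangeRestrict ∘ₗ (g : Module.End F V) ∘ₗ w : Module.End F (LinearMap.range a)) ∈ M) →
      ∀ g ∈ G, (a.rangeRestrict ∘ₗ (g : Module.End F V) ∘ₗ x ∘ₗ w : Module.End F (LinearMap.range a)) ∈ M := by
    intro x hx
    unfold gen at hx
    induction hx using Subsemigroup.closure_induction with
    | mem x hx =>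
      intro w hw g hg
      rcases hx with hx | ⟨g', hg', rfl⟩
      · have h1 : (a.rangeRestrict ∘ₗ (g : Module.End F V) ∘ₗ x ∘ₗ w : Module.End F (LinearMap.range a)) =
            imageMap a g * (a.rangeRestrict ∘ₗ ((1 : LinearMap.GeneralLinearGroup F V) : Module.End F V) ∘ₗ w) := by
          rw [Set.mem_singleton_iff.1 hx]
          rfl
        rw [h1]
        exact M.mul_mem (Subsemigroup.subset_closure ⟨g, hg, rfl⟩) (hw 1 G.one_mem)
      · exact hw (g * g') (G.mul_mem hg hg')
    | mul x y _ _ ihx ihy =>
      intro w hw g hg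
      exact ihx (y ∘ₗ w) (ihy w hw) g hg
  obtain ⟨σ, hσ⟩ := LinearMap.exists_rightInverse_of_surjective a.rangeRestrict
    (LinearMap.range_eq_top.2 a.surjective_rangeRestrict)
  obtain ⟨W, hW⟩ := Submodule.exists_isCompl (LinearMap.range a)
  have hx : (σ ∘ₗ m ∘ₗ (LinearMap.range a).projectionOnto W hW : Module.End F V) ∈ gen a G := by
    apply hF
    unfold rank
    rw [LinearMap.range_comp, LinearMap.range_comp, Submodule.range_projectionOnto]
    exact (Submodule.finrank_map_le _ _).trans (Submodule.finrank_le _)
  have := key _ hx (LinearMap.range a).subtype (fun g hg => Subsemigroup.subset_closure ⟨g, hg, rfl⟩) 1 G.one_mem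
  have h2 : (a.rangeRestrict ∘ₗ ((1 : LinearMap.GeneralLinearGroup F V) : Module.End F V) ∘ₗ
      (σ ∘ₗ m ∘ₗ (LinearMap.range a).projectionOnto W hW : Module.End F V) ∘ₗ (LinearMap.range a).subtype :
      Module.End F (LinearMap.range a)) = m := by
    apply LinearMap.ext
    intro u
    show a.rangeRestrict (σ (m ((LinearMap.range a).projectionOnto W hW (u : V)))) = m u
    rw [Submodule.projectionOnto_apply_left]
    exact congrArg (fun f : LinearMap.range a →ₗ[F] LinearMap.range a => f (m u)) hσ
  rw [h2] at this
  exact this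

theorem regular_of_generates {a : Module.End F V} {G : Subgroup (LinearMap.GeneralLinearGroup F V)}
    (hG : Generates a G) : Regular a G := by
  intro g hg hr
  have key : ∀ c ∈ Subsemigroup.closure (imageMap a '' (G : Set (LinearMap.GeneralLinearGroup F V))),
      ∃ x ∈ gen a G, ∀ u : LinearMap.range a, x (u : V) = (c u : V) := by
    intro c hc
    induction hc using Subsemigroup.closure_induction with
    | mem c hc =>
      obtain ⟨g, hg, rfl⟩ := hc
      exact ⟨a * (g : Module.End F V), (gen a G).mul_mem (mem_a a G) (mem_g a hg), fun u => rfl⟩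
    | mul c d _ _ ihc ihd =>
      obtain ⟨x, hx, hxu⟩ := ihc
      obtain ⟨y, hy, hyu⟩ := ihd
      refine ⟨x * y, (gen a G).mul_mem hx hy, fun u => ?_⟩
      rw [Module.End.mul_apply, hyu, hxu]
      rfl
  have hker : LinearMap.ker a = LinearMap.ker (a * (g : Module.End F V) * a) := by
    apply ker_eq _ hr
    intro v hv
    rw [Module.End.mul_apply, hv, map_zero]
  have hinj : Function.Injective (imageMap a g) := by
    rw [← LinearMap.ker_eq_bot, LinearMap.ker_eq_bot']
    rintro ⟨_, ⟨v, rfl⟩⟩ h0
    have h1 : v ∈ LinearMap.ker (a * (g : Module.End F V) * a) := congrArg Subtype.val h0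
    rw [← hker] at h1
    exact Subtype.ext h1
  have hunit : IsUnit (imageMap a g) := (LinearMap.isUnit_iff_ker_eq_bot _).2 (LinearMap.ker_eq_bot.2 hinj)
  obtain ⟨q, hq⟩ := hunit
  obtain ⟨x, hx, hxu⟩ := key _ (hG (q⁻¹ : (Module.End F (LinearMap.range a))ˣ) (Units.isUnit _))
  refine ⟨x, hx, ?_⟩
  ext v
  show x ((imageMap a g ⟨a v, LinearMap.mem_range_self a v⟩ : LinearMap.range a) : V) = a v
  rw [hxu, ← hq, ← Module.End.mul_apply, Units.inv_mul]
  rfl

section Addition

/-- the same group as a group of linear equivalences -/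
def toE (G : Subgroup (LinearMap.GeneralLinearGroup F V)) : Subgroup (V ≃ₗ[F] V) :=
  G.map (LinearMap.GeneralLinearGroup.generalLinearEquiv F V).toMonoidHom

omit [FiniteDimensional F V] in
theorem gle_coe (g : LinearMap.GeneralLinearGroup F V) :
    ((LinearMap.GeneralLinearGroup.generalLinearEquiv F V g : V ≃ₗ[F] V) : V →ₗ[F] V) =
      (g : Module.End F V) := rfl

omit [FiniteDimensional F V] in
theorem trans_toE (G : Subgroup (LinearMap.GeneralLinearGroup F V)) (k : ℕ) :
    Transitive G k ↔ Pool.Agent.Helper91.AP.Trans (toE G) k := by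
  constructor
  · intro h U U' hU hU'
    obtain ⟨g, hg, h1⟩ := h U U' hU hU'
    exact ⟨_, ⟨g, hg, rfl⟩, h1⟩
  · intro h U U' hU hU'
    obtain ⟨_, ⟨g, hg, rfl⟩, h1⟩ := h U U' hU hU'
    exact ⟨g, hg, h1⟩

omit [FiniteDimensional F V] in
theorem image_toE (G : Subgroup (LinearMap.GeneralLinearGroup F V)) :
    Units.val '' (G : Set (LinearMap.GeneralLinearGroup F V)) =
      Pool.Agent.Helper91.AP.GE (toE G) := by
  ext x
  constructor
  · rintro ⟨g, hg, rfl⟩
    exact ⟨_, ⟨g, hg, rfl⟩, rfl⟩
  · rintro ⟨_, ⟨g, hg, rfl⟩, rfl⟩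
    exact ⟨g, hg, rfl⟩

omit [FiniteDimensional F V] in
theorem gen_toE (a : Module.End F V) (G : Subgroup (LinearMap.GeneralLinearGroup F V)) :
    gen a G = Pool.Agent.Helper91.AP.gen a (toE G) := by
  unfold gen Pool.Agent.Helper91.AP.gen
  rw [image_toE]

omit [FiniteDimensional F V] in
theorem toE_top : toE (⊤ : Subgroup (LinearMap.GeneralLinearGroup F V)) = ⊤ :=
  Subgroup.map_top_of_surjective _ (LinearMap.GeneralLinearGroup.generalLinearEquiv F V).surjective

omit [FiniteDimensional F V] in
theorem pair_toE (a : Module.End F V) (G : Subgroup (LinearMap.GeneralLinearGroup F V)) :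
    IsAutPair a G ↔ Pool.Agent.Helper91.AP.IsAutPair a (toE G) := by
  unfold IsAutPair Pool.Agent.Helper91.AP.IsAutPair
  rw [gen_toE, gen_toE, image_toE, image_toE, toE_top]

theorem finite_pair [Finite F] (a : Module.End F V) (ha : ¬ IsUnit a)
    (G : Subgroup (LinearMap.GeneralLinearGroup F V)) :
    (IsAutPair a G ↔ Transitive G (rank a)) ∧
    (IsAutPair a G ↔ Transitive G (finrank F V - rank a)) := by
  have h1 := LinearMap.finrank_range_add_finrank_ker a
  have h2 : finrank F V - rank a = finrank F (LinearMap.ker a) := by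
    unfold rank
    omega
  rw [h2, pair_toE, trans_toE, trans_toE]
  exact ⟨Pool.Agent.Helper91.AP.finite_iff_range ha, Pool.Agent.Helper91.AP.finite_iff_ker ha⟩

theorem example_rat : ∃ (a : Module.End ℚ (Fin 2 → ℚ))
    (G : Subgroup (LinearMap.GeneralLinearGroup ℚ (Fin 2 → ℚ))),
    ¬ IsUnit a ∧ (∀ k, Transitive G k) ∧ ¬ IsAutPair a G := by
  have key : ∃ G : Subgroup (LinearMap.GeneralLinearGroup ℚ (Fin 2 → ℚ)),
      toE G = Pool.Agent.Helper91.AP.GZ := by
    refine ⟨Pool.Agent.Helper91.AP.GZ.comap
      (LinearMap.GeneralLinearGroup.generalLinearEquiv ℚ (Fin 2 → ℚ)).toMonoidHom, ?_⟩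
    exact Subgroup.map_comap_eq_self_of_surjective
      (LinearMap.GeneralLinearGroup.generalLinearEquiv ℚ (Fin 2 → ℚ)).surjective _
  obtain ⟨G, hG⟩ := key
  refine ⟨Pool.Agent.Helper91.AP.aZ, G, Pool.Agent.Helper91.AP.aZ_not_unit, fun k => ?_, ?_⟩
  · rw [trans_toE, hG]
    exact Pool.Agent.Helper91.AP.GZ_trans k
  · rw [pair_toE, hG]
    exact Pool.Agent.Helper91.AP.not_pair

end Addition

universe u v

/-- **Criterion for `Aut(V)`-pairs.** Over every field: `(a, G)` is an `Aut(V)`-pair if and only if
`G` is transitive on the subspaces of dimension `r = rank a`, transitive on the subspaces of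
dimension `n - r`, and a third condition (`Generates` or `Regular`) holds.  The third condition is
automatic if `F` is algebraic over a finite field.  If `F` is finite, then transitivity on the
subspaces of dimension `r` (or of dimension `n - r`) alone is necessary and sufficient.  Over the
rationals the third condition is not automatic, even for `G` transitive on the subspaces of every
dimension. -/
theorem result :
    (∀ (F : Type u) (V : Type v) [Field F] [AddCommGroup V] [Module F V] [FiniteDimensional F V]
      (a : Module.End F V), ¬ IsUnit a → ∀ G : Subgroup (LinearMap.GeneralLinearGroup F V),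
      (IsAutPair a G ↔
        Transitive G (rank a) ∧ Transitive G (finrank F V - rank a) ∧ Generates a G) ∧
      (IsAutPair a G ↔
        Transitive G (rank a) ∧ Transitive G (finrank F V - rank a) ∧ Regular a G) ∧
      (∀ (p : ℕ) [Fact p.Prime] [Algebra (ZMod p) F], Algebra.IsAlgebraic (ZMod p) F →
        (IsAutPair a G ↔ Transitive G (rank a) ∧ Transitive G (finrank F V - rank a))) ∧
      (Finite F → (IsAutPair a G ↔ Transitive G (rank a)) ∧
        (IsAutPair a G ↔ Transitive G (finrank F V - rank a)))) ∧
    (∃ (a : Module.End ℚ (Fin 2 → ℚ))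
      (G : Subgroup (LinearMap.GeneralLinearGroup ℚ (Fin 2 → ℚ))),
      ¬ IsUnit a ∧ (∀ k, Transitive G k) ∧ ¬ IsAutPair a G) := by
  refine ⟨?_, example_rat⟩
  intro F V _ _ _ _ a ha G
  refine ⟨⟨fun h => ?_, fun h => ?_⟩, criterion ha G, ?_, fun _ => finite_pair a ha G⟩
  · have hF := (pair_iff_full ha G).1 h
    obtain ⟨h1, h2, -⟩ := of_full ha hF
    exact ⟨h1, h2, generates_of_full hF⟩
  · exact (criterion ha G).2 ⟨h.1, h.2.1, regular_of_generates h.2.2⟩
  · intro p _ _ hF
    rw [criterion ha G]
    exact ⟨fun h => ⟨h.1, h.2.1⟩, fun h => ⟨h.1, h.2, reg_alg p hF a G⟩⟩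

end Pool.Agent.Results.MP_2a19db_al.SubspaceTransitive
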